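import Pool.Agent.J4H74.AS.Codim
import Pool.Agent.J4H69.K2.Final

/-!
# The full Ax–Schanuel inequality for the Gamma function in codimension at most two, with parameters

Definitions (`Pool.Agent.J4H74.AS.Defs`): `Germ D f` (`f_1, …, f_n` are analytic on the connected open set `D` in
`ℂ ^ d`, not constant, `f_i` not in `ℚ f_j + ℚ`, and `d` of them have linearly independent differentials at some
point: a germ of dimension `d` of an analytic set in `ℂ ^ n`), `Low` (`trdeg ℂ(f) ≤ d`), `High` (`trdeg ℂ(f) = n`).

The theorem is `trdeg ℂ(f, Γ(f)) ≥ n + d` for every `Germ` with `n ≤ d + 2`, and for those with `trdeg ℂ(f)` equal to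
`d` or `n`; this is the case that `X` is a point and `σ` is empty. In general there is a parameter `x` in a topological
space `X`: if for the `x` in a dense subset of `X` the `f_x` are of this kind, and `h_s` are continuous functions on `X`
which are algebraically independent over `ℂ`, then there are `I`, `J` with `|I| + |J| = n + d` such that the functions
`h_s(x)`, `f_{x,i}(t)`, `i ∈ I`, `Γ(f_{x,j}(t))`, `j ∈ J`, of `(x, t)` are algebraically independent over `ℂ`. The `f_x`
may depend on `x` in any way.

Proof for one germ, `n ≤ d + 2`. For `d = 1` this is the theorem for at most three functions of project K2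
(`Pool.Agent.J4H69.K2.full_three`). Induction on `d`: take `d` of the functions as local coordinates `s_0, …, s_{d-1}`,
and let `C` be the set of the `i` such that `f_i` is a function of `s_0` alone. It has at most `n - (d - 1) ≤ 3`
elements, so the theorem holds for the curve `(f_i)`, `i ∈ C`. By the theorem of Baire the other functions are, on
a dense set of slices `s_0 = x`, a germ of dimension `d - 1` and codimension at most two. So the theorem with a
parameter applies, with the `f_i(x)` and `Γ(f_j(x))`, `i, j ∈ C`, as the functions `h_s`.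
-/

set_option autoImplicit false

namespace Pool.Agent.Results.MP_26ad15_nt.CodimensionTwo

open Pool.Agent.J4H74.AS

theorem result (X σ : Type) [TopologicalSpace X] (d n : ℕ) (h : σ → X → ℂ)
    (D : X → Set (Fin d → ℂ)) (f : X → Fin n → (Fin d → ℂ) → ℂ)
    (hc : ∀ i, Continuous (h i))
    (hi : ∀ P : MvPolynomial σ ℂ, P ≠ 0 → ∃ x, MvPolynomial.eval (fun i => h i x) P ≠ 0)
    (hd : Dense {x | Germ (D x) (f x) ∧ (n ≤ d + 2 ∨ Low (D x) (f x) ∨ High (D x) (f x))}) :
    ∃ I J : Finset (Fin n), I.card + J.card = n + d ∧
      ∀ P : MvPolynomial (I ⊕ J) (MvPolynomial σ ℂ), P ≠ 0 →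
        ∃ x, ∃ t ∈ D x, (∀ j ∈ J, ∀ k : ℕ, f x j t ≠ -k) ∧
          MvPolynomial.eval (Sum.elim (fun i : I => f x i t) fun j : J => Complex.Gamma (f x j t))
            (P.map (MvPolynomial.eval fun i => h i x)) ≠ 0 :=
  Slice.families hc hi (hd.mono fun _ hx =>
    Slice.full_codim (Pool.Agent.W253.GF.gtd Pool.Agent.W175.GF.gtF) (c := 2)
      (fun _ hm _ _ hG => Pool.Agent.J4H69.K2.full_three (by omega) le_rfl hG) hx.1 hx.2)

end Pool.Agent.Results.MP_26ad15_nt.CodimensionTwo
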