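import Pool.Agent.J4H69.AX.Gam

/-!
# Ax–Schanuel for the Gamma function on Zariski dense germs

Let `Z` be a germ of an analytic set of dimension `d` in `ℂ ^ n`. Then the field generated over `ℂ` by the restrictions
to `Z` of `z_1, …, z_n, Γ(z_1), …, Γ(z_n)` has transcendence degree at least `d` over the field generated by
`z_1, …, z_n`. If `Z` is Zariski dense in `ℂ ^ n` this is the full inequality of Ax–Schanuel type
`trdeg ℂ(z, Γ(z)) ≥ n + d`.

The theorem states this for germs given by analytic functions `f_1, …, f_n`, of which `d` have linearly independent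
differentials at some point: there are `d` indices `j` such that the functions `Γ(f_j)` are algebraically independent
over the field generated by `f_1, …, f_n`. (The coefficients of the polynomial `P` are polynomials in `f_1, …, f_n`.)

Idea of the proof: on a closed analytic set on which all `1 / Γ(z_i)` are algebraic over the functions `z_1, …, z_n` the
functions `1 / Γ(z_i + M) = 1 / Γ(z_i) / (z_i (z_i + 1) … (z_i + M - 1))` decay at infinity, so the maximum principle on
this set forces its dimension to be zero.
-/

set_option autoImplicit false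

namespace Pool.Agent.Results.MP_26ad15_nt.DenseAxSchanuel

theorem result (N n d : ℕ) (D : Set (Fin N → ℂ)) (f : Fin n → (Fin N → ℂ) → ℂ) (t₀ : Fin N → ℂ)
    (e : Fin d → Fin n) (hD : IsOpen D) (hp : IsPreconnected D)
    (hf : ∀ i, AnalyticOnNhd ℂ (f i) D) (ht₀ : t₀ ∈ D)
    (hli : LinearIndependent ℂ (fun k => fderiv ℂ (f (e k)) t₀)) :
    ∃ J : Finset (Fin n), J.card = d ∧
      ∀ P : MvPolynomial J (MvPolynomial (Fin n) ℂ),
        (∃ t ∈ D, P.map (MvPolynomial.eval fun i => f i t) ≠ 0) →
        ∃ t ∈ D, (∀ j ∈ J, ∀ k : ℕ, f j t ≠ -k) ∧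
          MvPolynomial.eval (fun j : J => Complex.Gamma (f j t))
            (P.map (MvPolynomial.eval fun i => f i t)) ≠ 0 := by
  obtain ⟨J, hJ, hI⟩ := Pool.Agent.J4H69.AX.functional hD hp hf
    (g := fun (_ : Fin n) w => (Complex.Gamma w)⁻¹) (fun _ => Pool.Agent.J4H69.AX.gam_dvb) ht₀ hli
  exact ⟨J, hJ, fun P hP => Pool.Agent.J4H69.AX.ind_gam hI P hP⟩

end Pool.Agent.Results.MP_26ad15_nt.DenseAxSchanuel
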