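import Pool.Agent.J4H69.AX.Aff

/-!
# The values of the Gamma function at a tuple, over the field generated by the tuple

Let `F` be a countable field with an embedding in `ℂ`. For all `n` and `m` the points `z` of `ℂ ^ n` with
`trdeg_F F(z, Γ(a_1 z_1 + b_1), …, Γ(a_n z_n + b_n)) ≤ trdeg_F F(z) + m` for some `a_i ≠ 0`, `b_i` in `F` lie in
countably many analytic images of open subsets of `ℂ ^ m`. The case `a_i = 1`, `b_i = 0` is about `F(z, Γ(z))`.

In particular (`m = 0`) for all but countably many `z` in `ℂ ^ n` one has `trdeg_F F(z, Γ(z)) > trdeg_F F(z)`, and so the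
conjectured inequality `trdeg_F F(z, Γ(z)) ≥ n` holds for all but countably many of the tuples `z` with
`trdeg_F F(z) ≥ n - 1`, whatever `n` is; and the exceptions to the conjecture with `trdeg_F F(z) = r` lie in countably
many analytic images of open subsets of `ℂ ^ (n - 1 - r)`. Another reading of the case `m = 0`: for all but countably
many `z` there is an index `i` such that all the numbers `Γ(a z_i + b)` (`a ≠ 0`, `b` in `F`) are transcendental
over `F(z)`.

No condition is imposed on `z`. (In Mathlib the value of `Γ` at a pole is `0`.)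
-/

set_option autoImplicit false

namespace Pool.Agent.Results.MP_26ad15_nt.RelativeDegree

theorem result (F : Type) [Field F] [Algebra F ℂ] [Countable F] (n m : ℕ) :
    ∃ (Φ : ℕ → (Fin m → ℂ) → (Fin n → ℂ)) (U : ℕ → Set (Fin m → ℂ)),
      (∀ k, IsOpen (U k)) ∧ (∀ k, AnalyticOnNhd ℂ (Φ k) (U k)) ∧
      {z : Fin n → ℂ | ∃ a b : Fin n → F, (∀ i, a i ≠ 0) ∧
        Algebra.trdeg F (IntermediateField.adjoin F (Set.range z ∪ Set.range fun i =>
          Complex.Gamma (algebraMap F ℂ (a i) * z i + algebraMap F ℂ (b i)))) ≤
            Algebra.trdeg F (IntermediateField.adjoin F (Set.range z)) + m} ⊆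
        ⋃ k, Φ k '' U k :=
  Pool.Agent.J4H69.AX.points_affine F n m

end Pool.Agent.Results.MP_26ad15_nt.RelativeDegree
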