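import Pool.Agent.J4H69.K2.FinalM

/-!
# The exceptions to the conjecture: countably many for `n = 4`, and dimension bounds for all `n`

Let `F` be a countable field with an embedding in `ℂ`, for instance `F = ℚ`. Call a coordinate `z_j` trivial if `z_j` and
`Γ(z_j)` are algebraic over `F`. For all `n` and `m` the points `z` of `ℂ ^ n` with
* condition (H) of the problem: `z_i` is not in `ℚ z_j + ℚ` for `i ≠ j`,
* `trdeg_F F(z, Γ(z)) ≤ 2 m + 3`,
* at least `m + 3` nontrivial coordinates,
* `trdeg_F F(z_j, Γ(z_j) : j ∉ S) ≥ 2` for all sets `S` of `m + 1` indices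
lie in countably many analytic images of open subsets of `ℂ ^ m`.

For `m = 0`: all but countably many `z` which satisfy condition (H), have at least three nontrivial coordinates and
have `trdeg_F F(z_j, Γ(z_j) : j ≠ i) ≥ 2` for each `i`, satisfy `trdeg_F F(z, Γ(z)) ≥ 4`. So for `n = 4` the conjecture
has at most countably many minimal counterexamples (those all of whose triples of coordinates satisfy its inequality).
In general the minimal counterexamples in `ℂ ^ n`, `n ≥ 4`, lie in countably many analytic images of open subsets of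
`ℂ ^ m` if `2 m + 4 ≥ n`.

The proof uses an Ax–Schanuel theorem for `Γ`: the inequality `trdeg ℂ(f, Γ(f)) ≥ n + d` for the coordinates `f_1, …, f_n`
on a germ of dimension `d ≥ 1` of an analytic set in `ℂ ^ n` with `n ≤ d + 2` (see `CodimensionTwo`).
-/

set_option autoImplicit false

namespace Pool.Agent.Results.MP_26ad15_nt.ThinExceptions

theorem result (F : Type) [Field F] [Algebra F ℂ] [Countable F] (n m : ℕ) :
    ∃ (Φ : ℕ → (Fin m → ℂ) → (Fin n → ℂ)) (U : ℕ → Set (Fin m → ℂ)),
      (∀ k, IsOpen (U k)) ∧ (∀ k, AnalyticOnNhd ℂ (Φ k) (U k)) ∧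
      {z : Fin n → ℂ | (∀ i j, i ≠ j → ∀ p q : ℚ, z i ≠ p * z j + q) ∧
        (∃ J : Finset (Fin n), J.card = m + 3 ∧
          ∀ j ∈ J, ¬ (IsAlgebraic F (z j) ∧ IsAlgebraic F (Complex.Gamma (z j)))) ∧
        (∀ S : Finset (Fin n), S.card = m + 1 → 2 ≤ Algebra.trdeg F (IntermediateField.adjoin F
          (Set.range (fun j : {j // j ∉ S} => z j.1) ∪
            Set.range fun j : {j // j ∉ S} => Complex.Gamma (z j.1)))) ∧
        Algebra.trdeg F (IntermediateField.adjoin F
          (Set.range z ∪ Set.range fun i => Complex.Gamma (z i))) ≤ ((2 * m + 3 : ℕ) : Cardinal)} ⊆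
        ⋃ k, Φ k '' U k :=
  Pool.Agent.J4H69.K2.thin n m

end Pool.Agent.Results.MP_26ad15_nt.ThinExceptions
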